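import Pool.Agent.Q284.SC.Fin

/-!
# Locally geometric sections and finite descent
-/

set_option autoImplicit false

open WeierstrassCurve

namespace Pool.Agent.Q284.SC

open Pool.Agent.W620.SC Pool.Agent.W623.SecC Pool.Agent.W623.SecE

open Pool.Agent.H437R2.Man.MW (crv crv_eqn crv_nonsing)

open Pool.Agent.W307.SE (Sel)

open Pool.Agent.Q284.FDQ

/-- the value of a point is a point of the covering -/
theorem cov_crv {R : Type} [Field R] [CharZero R] {WR : WeierstrassCurve R} {e1 e2 e3 : ℤ}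
    (hR : WR = crv (-(e1 : R)) (-(e2 : R)) (-(e3 : R)))
    (h12 : e1 ≠ e2) (h13 : e1 ≠ e3) (h23 : e2 ≠ e3) {L : Type} [Field L] [CharZero L]
    (pl : Place R L) (P : WR.toAffine.Point)
    {n1 n2 : ℤ} (hn1 : Squarefree n1) (hn2 : Squarefree n2)
    (p1 : IsSquare (vl P (e1 : R) ((e1 - e2) * (e1 - e3)) * n1))
    (p2 : IsSquare (vl P (e2 : R) ((e2 - e1) * (e2 - e3)) * n2)) :
    Cov L (e2 - e1) (e3 - e1) n1 n2 := by
  obtain ⟨Q, a1, a2⟩ := place_pt pl hR (WL := crv (-(e1 : L)) (-(e2 : L)) (-(e3 : L))) rfl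
    h12 h13 h23 P
  exact cov_of_vl rfl (Int.cast_ne_zero.2 hn1.ne_zero) (Int.cast_ne_zero.2 hn2.ne_zero)
    (fun h => h12 (by exact_mod_cast h)) Q (a1 n1 p1) (a2 n2 p2)

section

variable {F Ω : Type} [Field F] [Field Ω] [Algebra ℚ F] [Algebra F Ω] [Algebra ℚ Ω]
  {U : Set (ValuationSubring F)} [IsScalarTower ℚ F Ω] [IsAlgClosed Ω] [Algebra.IsAlgebraic F Ω]
  (hU : ∀ O ∈ U, ∀ c : ℚ, algebraMap ℚ F c ∈ O) {G : GSection ℚ F Ω U}

include hU

/-- **A locally geometric section gives a double covering with points everywhere locally.** -/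
theorem main3 (hG : LocGeo G) {A B b : ℤ} (hA : A ≠ 0) (hB : B ≠ 0) (hAB : A ≠ B)
    (hb : Squarefree b) (hd : b ∣ A * B) (hQ : Quar F A B b) :
    ∃ d : ℤ, Squarefree d ∧ Cov ℝ A B b d ∧ ∀ (p : ℕ) [Fact p.Prime], Cov ℚ_[p] A B b d := by
  obtain ⟨⟨pr, hpr⟩, hpp⟩ := hG
  choose pp hpp using hpp
  have hΩ : CharZero Ω := algebraRat.charZero Ω
  have hM : CharZero (unramified F Ω U) := (algebraMap (unramified F Ω U) Ω).charZero
  have hR : CharZero (R G) := (algebraMap (R G) (unramified F Ω U)).charZero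
  obtain ⟨N, M, e, h0, h1⟩ : Quar (R G) A B b := by
    obtain ⟨N, M, e, h0, h1⟩ := hQ
    refine ⟨algebraMap F (R G) N, algebraMap F (R G) M, algebraMap F (R G) e, ?_, ?_⟩
    · rcases h0 with h | h
      · exact Or.inl ((_root_.map_ne_zero _).2 h)
      · exact Or.inr ((_root_.map_ne_zero _).2 h)
    · have := congrArg (algebraMap F (R G)) h1
      simpa using this
  have hb' : (b : R G) ≠ 0 := Int.cast_ne_zero.2 hb.ne_zero
  obtain ⟨c, hbc⟩ := hd
  have hdiv : A * B / b = c := by rw [hbc, Int.mul_ediv_cancel_left _ hb.ne_zero]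
  have hbc' : (A : R G) * B = b * c := by exact_mod_cast congrArg (Int.cast : ℤ → R G) hbc
  rw [hdiv] at h1
  have h12 : (0 : ℤ) ≠ A := hA.symm
  have h13 : (0 : ℤ) ≠ B := hB.symm
  -- the point
  obtain ⟨P, hP⟩ : ∃ P : (crv (-((0 : ℤ) : R G)) (-(A : R G)) (-(B : R G))).toAffine.Point,
      IsSquare (vl P ((0 : ℤ) : R G) ((((0 : ℤ) : R G) - A) * (((0 : ℤ) : R G) - B)) * b) := by
    by_cases he : e = 0
    · refine ⟨0, ?_⟩
      rw [vl_zero, one_mul]
      have hM0 : M ≠ 0 := h0.resolve_right (fun h => h he)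
      refine ⟨N / M ^ 2, ?_⟩
      rw [he] at h1
      field_simp
      linear_combination -h1
    · have hns : (crv (-((0 : ℤ) : R G)) (-(A : R G)) (-(B : R G))).toAffine.Nonsingular
          (b * M ^ 2 / e ^ 2) (b * M * N / e ^ 3) := by
        apply crv_nonsing
        · intro h; exact h12 (by exact_mod_cast neg_injective h)
        · intro h; exact h13 (by exact_mod_cast neg_injective h)
        · intro h; exact hAB (by exact_mod_cast neg_injective h)
        · push_cast at h1 ⊢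
          field_simp
          linear_combination ((b : R G) ^ 2 * M ^ 2) * h1 - b * M ^ 2 * e ^ 4 * hbc'
      refine ⟨Affine.Point.some _ _ hns, ?_⟩
      by_cases hM0 : M = 0
      · rw [vl_root hns _ _ (by rw [hM0]; push_cast; ring)]
        refine ⟨b * N / e ^ 2, ?_⟩
        rw [hM0] at h1
        push_cast at h1 ⊢
        field_simp
        linear_combination e ^ 4 * hbc' - (b : R G) * h1
      · rw [vl_some hns _ _ (by
          push_cast
          rw [sub_zero]
          exact div_ne_zero (mul_ne_zero hb' (pow_ne_zero 2 hM0)) (pow_ne_zero 2 he))]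
        refine ⟨b * M / e, ?_⟩
        push_cast
        field_simp
        ring
  obtain ⟨n2, hn2, k2⟩ := cls_pt hU G (a := A) (b := 0) (c := B) (perm12 _ _ _) h12.symm hAB P
  have key : ∀ (L : Type) [Field L] [CharZero L] (_ : Place (R G) L), Cov L A B b n2 := by
    intro L _ _ pl
    have := cov_crv rfl h12 h13 hAB pl P hb hn2 hP k2
    rwa [sub_zero, sub_zero] at this
  exact ⟨n2, hn2, key ℝ (placeFix G pr hpr), fun q _ => key ℚ_[q] (placeFix G (pp q) (hpp q))⟩

end

end Pool.Agent.Q284.SC
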