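import Pool.Agent.Q284.SC.Sec

/-!
# Locally geometric sections
-/

set_option autoImplicit false

open WeierstrassCurve

namespace Pool.Agent.Q284.SC

open Pool.Agent.W620.SC Pool.Agent.W623.SecC Pool.Agent.W623.SecE

open Pool.Agent.H437R2.Man.MW (crv crv_eqn crv_nonsing)

open Pool.Agent.W307.SE (Sel)

open Pool.Agent.Q284.FDQ

section

variable {F Ω : Type} [Field F] [Field Ω] [Algebra ℚ F] [Algebra F Ω] [Algebra ℚ Ω]
  {U : Set (ValuationSubring F)}

/-- the section is given by places over all completions -/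
def LocGeo {k F Ω : Type} [Field k] [Field F] [Field Ω] [Algebra F Ω] [Algebra k Ω]
    {U : Set (ValuationSubring F)} (G : GSection k F Ω U) : Prop :=
  (∃ p : Place (unramified F Ω U) (AlgebraicClosure ℝ), Given G ℝ p) ∧
    ∀ (q : ℕ) [Fact q.Prime], ∃ p : Place (unramified F Ω U) (AlgebraicClosure ℚ_[q]),
      Given G ℚ_[q] p

/-- the fixed field as a type -/
def FF (G : GSection ℚ F Ω U) : Type := R G

noncomputable instance (G : GSection ℚ F Ω U) : Field (FF G) := inferInstanceAs (Field (R G))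

noncomputable instance (G : GSection ℚ F Ω U) : Algebra F (FF G) :=
  inferInstanceAs (Algebra F (R G))

instance ff_cz (G : GSection ℚ F Ω U) : CharZero (FF G) := by
  have hΩ : CharZero Ω := algebraRat.charZero Ω
  have hM : CharZero (unramified F Ω U) := (algebraMap (unramified F Ω U) Ω).charZero
  exact (algebraMap (R G) (unramified F Ω U)).charZero

variable [IsScalarTower ℚ F Ω] [IsAlgClosed Ω] [Algebra.IsAlgebraic F Ω]
  (hU : ∀ O ∈ U, ∀ c : ℚ, algebraMap ℚ F c ∈ O) {G : GSection ℚ F Ω U}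

include hU

open Classical in
/-- elliptic curves -/
theorem main1 (hG : LocGeo G) {A B e1 e2 e3 : ℤ}
    (h : ∀ x : ℤ, x ^ 3 + A * x + B = (x - e1) * (x - e2) * (x - e3))
    (h12 : e1 ≠ e2) (h13 : e1 ≠ e3) (h23 : e2 ≠ e3)
    (h4 : Four ((e2 - e1 : ℤ) : ℚ) ((e3 - e1 : ℤ) : ℚ)) (hc : (Sel (e2 - e1) (e3 - e1)).ncard ≤ 4)
    (P : ((WZ A B).baseChange (FF G)).Point) :
    ∃ T : ((WZ A B).baseChange ℚ).Point, T + T = 0 ∧
      ∀ m : ℕ, ∃ S, P = Affine.Point.baseChange ℚ (FF G) T + 2 ^ m • S := by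
  obtain ⟨⟨pr, hpr⟩, hpp⟩ := hG
  choose pp hpp using hpp
  have pr' : Place (FF G) ℝ := placeFix G pr hpr
  have pp' : ∀ (q : ℕ) [Fact q.Prime], Place (FF G) ℚ_[q] := fun q _ => placeFix G (pp q) (hpp q)
  refine steps h h12 h13 h23 h4 hc pr' pp' (fun P => ?_) P
  obtain ⟨n1, hn1, k1⟩ := cls_pt hU G (WR := (WZ A B).baseChange (FF G)) (WZ_eq h (FF G)) h12 h13 P
  have hW : (WZ A B).baseChange (FF G) = crv (-(e2 : FF G)) (-(e1 : FF G)) (-(e3 : FF G)) := by
    rw [WZ_eq h (FF G), perm12]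
  obtain ⟨n2, hn2, k2⟩ := cls_pt hU G (WR := (WZ A B).baseChange (FF G)) hW h12.symm h23 P
  exact ⟨n1, n2, hn1, hn2, k1, k2⟩

/-- coverings -/
theorem main2 (hG : LocGeo G) {A B b : ℤ} (hA : A ≠ 0) (hB : B ≠ 0) (hAB : A ≠ B)
    (h4 : Four (A : ℚ) (B : ℚ)) (hc : (Sel A B).ncard ≤ 4) (hb : Squarefree b) (hd : b ∣ A * B)
    (hQ : Quar F A B b) : Quar ℚ A B b := by
  obtain ⟨⟨pr, hpr⟩, hpp⟩ := hG
  choose pp hpp using hpp
  have hΩ : CharZero Ω := algebraRat.charZero Ω
  have hM : CharZero (unramified F Ω U) := (algebraMap (unramified F Ω U) Ω).charZero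
  have hR : CharZero (R G) := (algebraMap (R G) (unramified F Ω U)).charZero
  obtain ⟨N, M, e, h0, h1⟩ : Quar (R G) A B b := by
    obtain ⟨N, M, e, h0, h1⟩ := hQ
    refine ⟨algebraMap F (R G) N, algebraMap F (R G) M, algebraMap F (R G) e, ?_, ?_⟩
    · rcases h0 with h | h
      · exact Or.inl ((_root_.map_ne_zero _).2 h)
      · exact Or.inr ((_root_.map_ne_zero _).2 h)
    · have := congrArg (algebraMap F (R G)) h1
      simpa using this
  have hb' : (b : R G) ≠ 0 := Int.cast_ne_zero.2 hb.ne_zero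
  obtain ⟨c, hbc⟩ := hd
  have hdiv : A * B / b = c := by rw [hbc, Int.mul_ediv_cancel_left _ hb.ne_zero]
  have hbc' : (A : R G) * B = b * c := by exact_mod_cast congrArg (Int.cast : ℤ → R G) hbc
  rw [hdiv] at h1
  have h12 : (0 : ℤ) ≠ A := hA.symm
  have h13 : (0 : ℤ) ≠ B := hB.symm
  -- the point
  obtain ⟨P, hP⟩ : ∃ P : (crv (-((0 : ℤ) : R G)) (-(A : R G)) (-(B : R G))).toAffine.Point,
      IsSquare (vl P ((0 : ℤ) : R G) ((((0 : ℤ) : R G) - A) * (((0 : ℤ) : R G) - B)) * b) := by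
    by_cases he : e = 0
    · refine ⟨0, ?_⟩
      rw [vl_zero, one_mul]
      have hM0 : M ≠ 0 := h0.resolve_right (fun h => h he)
      refine ⟨N / M ^ 2, ?_⟩
      rw [he] at h1
      field_simp
      linear_combination -h1
    · have hns : (crv (-((0 : ℤ) : R G)) (-(A : R G)) (-(B : R G))).toAffine.Nonsingular
          (b * M ^ 2 / e ^ 2) (b * M * N / e ^ 3) := by
        apply crv_nonsing
        · intro h; exact h12 (by exact_mod_cast neg_injective h)
        · intro h; exact h13 (by exact_mod_cast neg_injective h)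
        · intro h; exact hAB (by exact_mod_cast neg_injective h)
        · push_cast at h1 ⊢
          field_simp
          linear_combination ((b : R G) ^ 2 * M ^ 2) * h1 - b * M ^ 2 * e ^ 4 * hbc'
      refine ⟨Affine.Point.some _ _ hns, ?_⟩
      by_cases hM0 : M = 0
      · rw [vl_root hns _ _ (by rw [hM0]; push_cast; ring)]
        refine ⟨b * N / e ^ 2, ?_⟩
        rw [hM0] at h1
        push_cast at h1 ⊢
        field_simp
        linear_combination e ^ 4 * hbc' - (b : R G) * h1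
      · rw [vl_some hns _ _ (by
          push_cast
          rw [sub_zero]
          exact div_ne_zero (mul_ne_zero hb' (pow_ne_zero 2 hM0)) (pow_ne_zero 2 he))]
        refine ⟨b * M / e, ?_⟩
        push_cast
        field_simp
        ring
  obtain ⟨n2, hn2, k2⟩ := cls_pt hU G (a := A) (b := 0) (c := B) (perm12 _ _ _) h12.symm hAB P
  have hm := sel_crv rfl h12 h13 hAB (placeFix G pr hpr) (fun q _ => placeFix G (pp q) (hpp q)) P
    hb hn2 hP k2
  rw [sub_zero, sub_zero] at hm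
  exact quar_of hb.ne_zero ⟨c, hbc⟩ (rat_of_sel hA hB hAB h4 hc hm)

end

end Pool.Agent.Q284.SC
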