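import Pool.Agent.Q284.SC.Fin

/-!
# Locally geometric sections: the fixed field over any base field
-/

set_option autoImplicit false

open WeierstrassCurve

namespace Pool.Agent.Q284.SC

open Pool.Agent.W620.SC

open Pool.Agent.W307.SE (Sel)

open Pool.Agent.Q284.FDQ

/-- the fixed field as a type -/
def FX {k F Ω : Type} [Field k] [Field F] [Field Ω] [Algebra F Ω] [Algebra k Ω]
    {U : Set (ValuationSubring F)} (G : GSection k F Ω U) : Type :=
  IntermediateField.fixedField G.toHom.range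

noncomputable instance {k F Ω : Type} [Field k] [Field F] [Field Ω] [Algebra F Ω] [Algebra k Ω]
    {U : Set (ValuationSubring F)} (G : GSection k F Ω U) : Field (FX G) :=
  inferInstanceAs (Field (IntermediateField.fixedField G.toHom.range))

noncomputable instance {k F Ω : Type} [Field k] [Field F] [Field Ω] [Algebra F Ω] [Algebra k Ω]
    {U : Set (ValuationSubring F)} (G : GSection k F Ω U) : Algebra F (FX G) :=
  inferInstanceAs (Algebra F (IntermediateField.fixedField G.toHom.range))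

instance {k F Ω : Type} [Field k] [Field F] [CharZero F] [Field Ω] [Algebra F Ω] [Algebra k Ω]
    {U : Set (ValuationSubring F)} (G : GSection k F Ω U) : CharZero (FX G) :=
  charZero_of_injective_algebraMap (algebraMap F (FX G)).injective

variable {F Ω : Type} [Field F] [CharZero F] [Field Ω] [Algebra ℚ F] [Algebra F Ω] [Algebra ℚ Ω]
  {U : Set (ValuationSubring F)} [IsScalarTower ℚ F Ω] [IsAlgClosed Ω] [Algebra.IsAlgebraic F Ω]

open Classical in
theorem main1' (hU : ∀ O ∈ U, ∀ c : ℚ, algebraMap ℚ F c ∈ O) {G : GSection ℚ F Ω U}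
    (hG : LocGeo G) {A B e1 e2 e3 : ℤ}
    (h : ∀ x : ℤ, x ^ 3 + A * x + B = (x - e1) * (x - e2) * (x - e3))
    (h12 : e1 ≠ e2) (h13 : e1 ≠ e3) (h23 : e2 ≠ e3)
    (h4 : Four ((e2 - e1 : ℤ) : ℚ) ((e3 - e1 : ℤ) : ℚ)) (hc : (Sel (e2 - e1) (e3 - e1)).ncard ≤ 4)
    (P : ((WZ A B).baseChange (FX G)).Point) :
    ∃ T : ((WZ A B).baseChange ℚ).Point, T + T = 0 ∧
      ∀ m : ℕ, ∃ S, P = Affine.Point.baseChange ℚ (FX G) T + 2 ^ m • S :=
  main1 hU hG h h12 h13 h23 h4 hc P

end Pool.Agent.Q284.SC
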