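import Pool.Agent.W623.SecE.Glb

/-!
# The field of the elements fixed by a section
-/

set_option autoImplicit false

namespace Pool.Agent.Q284.SC

open Pool.Agent.W620.SC Pool.Agent.W623.SecC Pool.Agent.W623.SecE

variable {k F Ω : Type} [Field k] [Field F] [Field Ω] [Algebra k F] [Algebra F Ω] [Algebra k Ω]
  {U : Set (ValuationSubring F)}

/-- the elements of `F_U` fixed by the section -/
noncomputable def R (G : GSection k F Ω U) : IntermediateField F (unramified F Ω U) :=
  IntermediateField.fixedField G.toHom.range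

omit [Algebra k F] in
lemma mem_R (G : GSection k F Ω U) {z : unramified F Ω U} :
    z ∈ R G ↔ ∀ σ, G.toHom σ z = z := by
  unfold R
  rw [IntermediateField.mem_fixedField_iff]
  constructor
  · intro h σ
    exact h _ ⟨σ, rfl⟩
  · rintro h _ ⟨σ, rfl⟩
    exact h σ

variable [IsScalarTower k F Ω] [CharZero k]

lemma iota_fixed [IsAlgClosed Ω] (hU : ∀ O ∈ U, ∀ c : k, algebraMap k F c ∈ O)
    (G : GSection k F Ω U) (a : algebraicClosure k Ω) (h : constHom hU a ∈ R G) :
    ∃ c : k, a = algebraMap k _ c := by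
  have hac : IsAlgClosure k (algebraicClosure k Ω) := inferInstance
  have : Normal k (algebraicClosure k Ω) := IsAlgClosure.normal k _
  have hGal : IsGalois k (algebraicClosure k Ω) := ⟨⟩
  have h2 : a ∈ (⊥ : IntermediateField k (algebraicClosure k Ω)) := by
    apply mem_of_fixed
    intro σ _
    apply Subtype.ext
    rw [← G.compat σ a (constHom hU a) rfl, (mem_R G).1 h σ]
    rfl
  obtain ⟨c, hc⟩ := IntermediateField.mem_bot.1 h2
  exact ⟨c, hc.symm⟩

/-- Kummer classes -/
lemma kummer [IsAlgClosed Ω] [Algebra.IsAlgebraic F Ω]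
    (hU : ∀ O ∈ U, ∀ c : k, algebraMap k F c ∈ O) (G : GSection k F Ω U)
    {z α : unramified F Ω U} (hz : z ∈ R G) (hz0 : z ≠ 0) (hα : α ^ 2 = z) :
    ∃ c : k, c ≠ 0 ∧ ∃ γ ∈ R G, z = constHom hU (algebraMap k _ c) * γ ^ 2 := by
  have hac : IsAlgClosure k (algebraicClosure k Ω) := inferInstance
  have : Normal k (algebraicClosure k Ω) := IsAlgClosure.normal k _
  have hα0 : α ≠ 0 := by
    rintro rfl
    apply hz0
    rw [← hα]
    ring
  obtain ⟨E, hE, hE'⟩ := sec_cont U G α
  obtain ⟨β, hβ0, hβ⟩ := exists_fixed_multiple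
    ((toRingAutHom F (unramified F Ω U)).comp G.toHom) (constHom hU)
    (fun σ a => Subtype.ext (G.compat σ a (constHom hU a) rfl)) ⊤ α hα0
    (fun σ _ => by
      have h1 : (G.toHom σ α) ^ 2 = α ^ 2 := by
        rw [← map_pow, hα]
        exact (mem_R G).1 hz σ
      rcases sq_eq_sq_iff_eq_or_eq_neg.1 h1 with h2 | h2
      · refine ⟨1, ?_⟩
        rw [map_one, one_mul]
        exact h2
      · refine ⟨-1, ?_⟩
        rw [map_neg, map_one, neg_one_mul]
        exact h2) E hE'
  have hγ : constHom hU β * α ∈ R G := (mem_R G).2 fun σ => hβ σ trivial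
  have hβ2 : constHom hU (β ^ 2) ∈ R G := by
    have h1 : constHom hU (β ^ 2) = (constHom hU β * α) ^ 2 / z := by
      rw [mul_pow, hα, mul_div_assoc, div_self hz0, mul_one, map_pow]
    rw [h1]
    exact div_mem (pow_mem hγ 2) hz
  obtain ⟨c, hc⟩ := iota_fixed hU G _ hβ2
  have hc0 : c ≠ 0 := by
    rintro rfl
    rw [map_zero] at hc
    exact hβ0 (pow_eq_zero_iff (two_ne_zero)|>.1 hc)
  refine ⟨c⁻¹, inv_ne_zero hc0, _, hγ, ?_⟩
  rw [mul_pow, hα, ← map_pow, hc, ← mul_assoc, ← map_mul, ← map_mul, inv_mul_cancel₀ hc0, map_one,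
    map_one, one_mul]

/-- the functions `x - a` have even divisors -/
lemma root_mem' [IsAlgClosed Ω] (hU : ∀ O ∈ U, ∀ c : k, algebraMap k F c ∈ O)
    {x y : unramified F Ω U} {a b c : ℤ} (hab : a ≠ b) (hac : a ≠ c)
    (e : y ^ 2 = (x - a) * (x - b) * (x - c)) : ∃ α : unramified F Ω U, α ^ 2 = x - a := by
  apply exists_root_unramified (k := k) U hU (n := 2) (by norm_num)
  intro hz0 W hW
  have hWk : ∀ c : k, algebraMap k Ω c ∈ W := by
    intro c
    rw [IsScalarTower.algebraMap_apply k F Ω]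
    exact hU _ hW c
  have hint : ∀ n : ℤ, (n : Ω) ∈ W := by
    intro n
    have := hWk (n : k)
    rwa [map_intCast] at this
  have hunit : ∀ n : ℤ, n ≠ 0 → (n : Ω) ≠ 0 ∧ ((n : Ω))⁻¹ ∈ W := by
    intro n hn
    refine ⟨?_, ?_⟩
    · intro h
      have h1 : algebraMap k Ω (n : k) = 0 := by rw [map_intCast]; exact h
      rw [map_eq_zero] at h1
      exact hn (by exact_mod_cast h1)
    · have := hWk ((n : k)⁻¹)
      rwa [map_inv₀, map_intCast] at this
  have eΩ : (y : Ω) ^ 2 = ((x : Ω) - a) * (x - b) * (x - c) := by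
    have := congrArg (Subtype.val : unramified F Ω U → Ω) e
    exact this
  have hz : ((x - a : unramified F Ω U) : Ω) = (x : Ω) - a := rfl
  rw [hz] at hz0 ⊢
  set X : Ω := (x : Ω) with hX
  have sub_ne : ∀ n : ℤ, a ≠ n → (a : Ω) - n ≠ 0 := by
    intro n hn
    have := (hunit (a - n) (sub_ne_zero.2 hn)).1
    push_cast at this
    exact this
  have sub_inv : ∀ n : ℤ, a ≠ n → ((a : Ω) - n)⁻¹ ∈ W := by
    intro n hn
    have := (hunit (a - n) (sub_ne_zero.2 hn)).2
    push_cast at this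
    exact this
  by_cases hx : X ∈ W
  · have hm : ∀ n : ℤ, X - n ∈ W := fun n => sub_mem hx (hint n)
    by_cases hu : X - a ∈ W.nonunits
    · -- the others are units
      have hoth : ∀ n : ℤ, a ≠ n → X - n ≠ 0 ∧ (X - n)⁻¹ ∈ W := by
        intro n hn
        have h1 : IsU W ((a : Ω) - n) :=
          ⟨sub_ne n hn, sub_mem (hint a) (hint n), sub_inv n hn⟩
        have h2 := isU_add_nonunit h1 hu
        have h3 : (a : Ω) - n + (X - a) = X - n := by ring
        rw [h3] at h2
        exact ⟨h2.1, h2.2.2⟩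
      obtain ⟨b1, b2⟩ := hoth b hab
      obtain ⟨c1, c2⟩ := hoth c hac
      have hy0 : (y : Ω) ≠ 0 := by
        intro h
        rw [h, zero_pow two_ne_zero] at eΩ
        exact mul_ne_zero (mul_ne_zero hz0 b1) c1 eΩ.symm
      refine ⟨y, y.2, hy0, ?_, ?_⟩
      · rw [eΩ]
        have h1 : (X - a) / ((X - a) * (X - b) * (X - c)) = (X - b)⁻¹ * (X - c)⁻¹ := by
          field_simp
        rw [h1]
        exact mul_mem b2 c2
      · rw [eΩ]
        have h1 : (X - a) * (X - b) * (X - c) / (X - a) = (X - b) * (X - c) := by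
          field_simp
        rw [h1]
        exact mul_mem (hm b) (hm c)
    · have h1 := isU_of_not_nonunit (hm a) hu
      refine ⟨1, one_mem _, one_ne_zero, ?_, ?_⟩
      · rw [one_pow, div_one]
        exact hm a
      · rw [one_pow, one_div]
        exact h1.2.2
  · have hx0 : X ≠ 0 := by
      intro h
      rw [h] at hx
      exact hx (zero_mem _)
    have hxi : X⁻¹ ∈ W := (W.mem_or_inv_mem X).resolve_left hx
    have hxn : X⁻¹ ∈ W.nonunits := by
      by_contra hcon
      have h1 := isU_of_not_nonunit hxi hcon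
      rw [← inv_inv X] at hx
      exact hx h1.2.2
    have hun : ∀ n : ℤ, 1 - n * X⁻¹ ≠ 0 ∧ 1 - n * X⁻¹ ∈ W ∧ (1 - n * X⁻¹)⁻¹ ∈ W := by
      intro n
      have h1 : (-(n : Ω)) * X⁻¹ ∈ W.nonunits := nonunit_mul (neg_mem (hint n)) hxn
      have h2 := isU_add_nonunit (isU_one (V := W)) h1
      have h3 : 1 + -(n : Ω) * X⁻¹ = 1 - n * X⁻¹ := by ring
      rw [h3] at h2
      exact h2
    have hX' : ∀ n : ℤ, X - n = X * (1 - n * X⁻¹) := by
      intro n
      field_simp
    have hy0 : (y : Ω) ≠ 0 := by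
      intro h
      rw [h, zero_pow two_ne_zero, hX' a, hX' b, hX' c] at eΩ
      exact mul_ne_zero (mul_ne_zero (mul_ne_zero hx0 (hun a).1) (mul_ne_zero hx0 (hun b).1))
        (mul_ne_zero hx0 (hun c).1) eΩ.symm
    refine ⟨(y : Ω) / X, div_mem y.2 x.2, div_ne_zero hy0 hx0, ?_, ?_⟩
    · rw [div_pow, eΩ, hX' a, hX' b, hX' c]
      have h1 := (hun a).1
      have h2 := (hun b).1
      have h3 := (hun c).1
      have h4 : X * (1 - a * X⁻¹) / (X * (1 - a * X⁻¹) * (X * (1 - b * X⁻¹)) *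
          (X * (1 - c * X⁻¹)) / X ^ 2) = (1 - b * X⁻¹)⁻¹ * (1 - c * X⁻¹)⁻¹ := by
        generalize 1 - (a : Ω) * X⁻¹ = p at *
        generalize 1 - (b : Ω) * X⁻¹ = q at *
        generalize 1 - (c : Ω) * X⁻¹ = r at *
        field_simp
      rw [h4]
      exact mul_mem (hun b).2.2 (hun c).2.2
    · rw [div_pow, eΩ, hX' a, hX' b, hX' c]
      have h1 := (hun a).1
      have h4 : X * (1 - a * X⁻¹) * (X * (1 - b * X⁻¹)) * (X * (1 - c * X⁻¹)) / X ^ 2 /
          (X * (1 - a * X⁻¹)) = (1 - b * X⁻¹) * (1 - c * X⁻¹) := by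
        generalize 1 - (a : Ω) * X⁻¹ = p at *
        generalize 1 - (b : Ω) * X⁻¹ = q at *
        generalize 1 - (c : Ω) * X⁻¹ = r at *
        field_simp
      rw [h4]
      exact mul_mem (hun b).2.1 (hun c).2.1

end Pool.Agent.Q284.SC
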