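import Pool.Agent.Q284.SC.Fix
import Pool.Agent.Q284.FDQ.Glob

/-!
# Places and local points
-/

set_option autoImplicit false

open WeierstrassCurve

namespace Pool.Agent.Q284.SC

open Pool.Agent.H437R2.Man.MW (crv crv_eqn crv_nonsing)

open Pool.Agent.Q284.FDQ (vl vl_zero vl_some vl_root vl_ne)

/-- a place of `M` with values in `C` -/
structure Place (M C : Type) [Field M] [Field C] where
  /-- the valuation ring -/
  W : ValuationSubring M
  /-- the residue map -/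
  ρ : W →+* C
  loc : ∀ x : W, ρ x ≠ 0 → (x : M)⁻¹ ∈ W

section place

variable {M C : Type} [Field M] [Field C] (p : Place M C)

lemma Place.mem_of_sq {w z : M} (h : w ^ 2 = z) (hz : z ∈ p.W) :
    ∃ hw : w ∈ p.W, p.ρ ⟨w, hw⟩ ^ 2 = p.ρ ⟨z, hz⟩ := by
  have hw : w ∈ p.W := Pool.Agent.W623.SecC.mem_of_pow_mem (n := 2) (by norm_num) (by rwa [h])
  refine ⟨hw, ?_⟩
  rw [← map_pow]
  congr 1
  exact Subtype.ext h

lemma Place.int_mem [CharZero M] (n : ℤ) : ∃ h : (n : M) ∈ p.W, p.ρ ⟨n, h⟩ = n := by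
  have h : (n : M) ∈ p.W := intCast_mem _ n
  refine ⟨h, ?_⟩
  have : (⟨(n : M), h⟩ : p.W) = (n : p.W) := rfl
  rw [this, map_intCast]

lemma Place.inv_zero {x : M} (hx : x ∉ p.W) : ∃ h : x⁻¹ ∈ p.W, p.ρ ⟨x⁻¹, h⟩ = 0 := by
  have h := (p.W.mem_or_inv_mem x).resolve_left hx
  refine ⟨h, ?_⟩
  by_contra hne
  have := p.loc ⟨x⁻¹, h⟩ hne
  rw [inv_inv] at this
  exact hx this

end place

section points

variable {R L : Type} [Field R] [CharZero R] [Field L] (p : Place R L)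

include p

lemma sq_infty {x y s : R} {a b c n : ℤ} (e : y ^ 2 = (x - a) * (x - b) * (x - c))
    (hx : x ∉ p.W) (hs : (x - a) * n = s * s) : IsSquare ((n : L)) := by
  obtain ⟨hu, hu0⟩ := p.inv_zero hx
  have hx0 : x ≠ 0 := by
    rintro rfl
    exact hx (zero_mem _)
  have hint := fun n : ℤ => p.int_mem (M := R) n
  have hne : ∀ m : ℤ, x - m ≠ 0 := by
    intro m h
    apply hx
    rw [sub_eq_zero.1 h]
    exact (hint m).1
  have hz : (n : R) * (1 - b * x⁻¹) * (1 - c * x⁻¹) ∈ p.W :=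
    mul_mem (mul_mem (hint n).1 (sub_mem (one_mem _) (mul_mem (hint b).1 hu)))
      (sub_mem (one_mem _) (mul_mem (hint c).1 hu))
  have h1 : (s * y / ((x - a) * x)) ^ 2 = (n : R) * (1 - b * x⁻¹) * (1 - c * x⁻¹) := by
    have h2 := hne a
    rw [div_pow, mul_pow, e, pow_two s, ← hs]
    field_simp
  obtain ⟨hw, hw2⟩ := p.mem_of_sq h1 hz
  refine ⟨p.ρ ⟨_, hw⟩, ?_⟩
  rw [← pow_two, hw2]
  have h3 : (⟨(n : R) * (1 - b * x⁻¹) * (1 - c * x⁻¹), hz⟩ : p.W) =
      ⟨n, (hint n).1⟩ * (1 - ⟨b, (hint b).1⟩ * ⟨x⁻¹, hu⟩) * (1 - ⟨c, (hint c).1⟩ * ⟨x⁻¹, hu⟩) := rfl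
  rw [h3, map_mul, map_mul, map_sub, map_sub, map_mul, map_mul, hu0, (hint n).2, map_one]
  ring

lemma sq_fin {x y s : R} {a b c n : ℤ} (e : y ^ 2 = (x - a) * (x - b) * (x - c))
    (hx : x ∈ p.W) (hxa : x - a ≠ 0) (hs : (x - a) * n = s * s) :
    (p.ρ ⟨x, hx⟩ - a ≠ 0 → IsSquare ((p.ρ ⟨x, hx⟩ - a) * n)) ∧
      (p.ρ ⟨x, hx⟩ - a = 0 → IsSquare (((a : L) - b) * (a - c) * n)) := by
  have hint := fun n : ℤ => p.int_mem (M := R) n
  constructor
  · intro _
    have hz : (x - a) * n ∈ p.W := mul_mem (sub_mem hx (hint a).1) (hint n).1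
    obtain ⟨hw, hw2⟩ := p.mem_of_sq (w := s) (by rw [pow_two]; exact hs.symm) hz
    refine ⟨p.ρ ⟨_, hw⟩, ?_⟩
    rw [← pow_two, hw2]
    have h3 : (⟨(x - a) * n, hz⟩ : p.W) = (⟨x, hx⟩ - ⟨a, (hint a).1⟩) * ⟨n, (hint n).1⟩ := rfl
    rw [h3, map_mul, map_sub, (hint a).2, (hint n).2]
  · intro h0
    have hxr : p.ρ ⟨x, hx⟩ = a := sub_eq_zero.1 h0
    have hz : (x - b) * (x - c) * n ∈ p.W :=
      mul_mem (mul_mem (sub_mem hx (hint b).1) (sub_mem hx (hint c).1)) (hint n).1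
    have h1 : (s * y / (x - a)) ^ 2 = (x - b) * (x - c) * n := by
      rw [div_pow, mul_pow, e, pow_two s, ← hs]
      field_simp
    obtain ⟨hw, hw2⟩ := p.mem_of_sq h1 hz
    refine ⟨p.ρ ⟨_, hw⟩, ?_⟩
    rw [← pow_two, hw2]
    have h3 : (⟨(x - b) * (x - c) * n, hz⟩ : p.W) = (⟨x, hx⟩ - ⟨b, (hint b).1⟩) *
      (⟨x, hx⟩ - ⟨c, (hint c).1⟩) * ⟨n, (hint n).1⟩ := rfl
    rw [h3, map_mul, map_mul, map_sub, map_sub, (hint b).2, (hint c).2, (hint n).2, hxr]

/-- the value of a point at a place -/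
lemma place_pt [CharZero L] {WR : WeierstrassCurve R} {WL : WeierstrassCurve L} {e1 e2 e3 : ℤ}
    (hR : WR = crv (-(e1 : R)) (-(e2 : R)) (-(e3 : R)))
    (hL : WL = crv (-(e1 : L)) (-(e2 : L)) (-(e3 : L)))
    (h12 : e1 ≠ e2) (h13 : e1 ≠ e3) (h23 : e2 ≠ e3) (P : WR.toAffine.Point) :
    ∃ Q : WL.toAffine.Point,
      (∀ n : ℤ, IsSquare (vl P (e1 : R) ((e1 - e2) * (e1 - e3)) * n) →
        IsSquare (vl Q (e1 : L) ((e1 - e2) * (e1 - e3)) * n)) ∧
      ∀ n : ℤ, IsSquare (vl P (e2 : R) ((e2 - e1) * (e2 - e3)) * n) →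
        IsSquare (vl Q (e2 : L) ((e2 - e1) * (e2 - e3)) * n) := by
  have hint := fun n : ℤ => p.int_mem (M := R) n
  have hcst : ∀ (m n : ℤ), IsSquare ((m : R) * n) → IsSquare ((m : L) * n) := by
    rintro m n ⟨s, hs⟩
    have hz : (m : R) * n ∈ p.W := mul_mem (hint m).1 (hint n).1
    obtain ⟨hw, hw2⟩ := p.mem_of_sq (w := s) (by rw [pow_two]; exact hs.symm) hz
    refine ⟨p.ρ ⟨_, hw⟩, ?_⟩
    rw [← pow_two, hw2]
    have h3 : (⟨(m : R) * n, hz⟩ : p.W) = ⟨m, (hint m).1⟩ * ⟨n, (hint n).1⟩ := rfl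
    rw [h3, map_mul, (hint m).2, (hint n).2]
  rcases P with _ | ⟨x, y, h⟩
  · refine ⟨0, ?_, ?_⟩
    · intro n hn
      change IsSquare ((1 : R) * n) at hn
      have := hcst 1 n (by exact_mod_cast hn)
      change IsSquare ((1 : L) * n)
      exact_mod_cast this
    · intro n hn
      change IsSquare ((1 : R) * n) at hn
      have := hcst 1 n (by exact_mod_cast hn)
      change IsSquare ((1 : L) * n)
      exact_mod_cast this
  · have e : y ^ 2 = (x - e1) * (x - e2) * (x - e3) := by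
      have h1 := h.1
      rw [hR] at h1
      have := crv_eqn.mp h1
      linear_combination this
    have e' : y ^ 2 = (x - e2) * (x - e1) * (x - e3) := by
      rw [e]; ring
    by_cases hx : x ∈ p.W
    · -- a finite point
      have hy2 : y ^ 2 ∈ p.W := by
        rw [e]
        exact mul_mem (mul_mem (sub_mem hx (hint e1).1) (sub_mem hx (hint e2).1))
          (sub_mem hx (hint e3).1)
      obtain ⟨hy, hyy⟩ := p.mem_of_sq (w := y) rfl hy2
      have eL : p.ρ ⟨y, hy⟩ ^ 2 = (p.ρ ⟨x, hx⟩ - e1) * (p.ρ ⟨x, hx⟩ - e2) *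
          (p.ρ ⟨x, hx⟩ - e3) := by
        rw [hyy]
        have h3 : (⟨y ^ 2, hy2⟩ : p.W) = (⟨x, hx⟩ - ⟨e1, (hint e1).1⟩) *
            (⟨x, hx⟩ - ⟨e2, (hint e2).1⟩) * (⟨x, hx⟩ - ⟨e3, (hint e3).1⟩) := Subtype.ext e
        rw [h3, map_mul, map_mul, map_sub, map_sub, map_sub, (hint e1).2, (hint e2).2,
          (hint e3).2]
      have hns : WL.toAffine.Nonsingular (p.ρ ⟨x, hx⟩) (p.ρ ⟨y, hy⟩) := by
        rw [hL]
        apply crv_nonsing
        · intro h; exact h12 (by exact_mod_cast neg_injective h)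
        · intro h; exact h13 (by exact_mod_cast neg_injective h)
        · intro h; exact h23 (by exact_mod_cast neg_injective h)
        · rw [eL]; ring
      refine ⟨Affine.Point.some _ _ hns, ?_, ?_⟩
      · rintro n ⟨s, hs⟩
        by_cases hxa : x - (e1 : R) = 0
        · rw [vl_root h _ _ hxa] at hs
          have hxr : p.ρ ⟨x, hx⟩ - (e1 : L) = 0 := by
            have h3 : (⟨x, hx⟩ : p.W) = ⟨(e1 : R), (hint e1).1⟩ := Subtype.ext (sub_eq_zero.1 hxa)
            rw [h3, (hint e1).2, sub_self]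
          rw [vl_root hns _ _ hxr]
          have := hcst ((e1 - e2) * (e1 - e3)) n ⟨s, by push_cast; exact hs⟩
          push_cast at this
          exact this
        · rw [vl_some h _ _ hxa] at hs
          obtain ⟨g1, g2⟩ := sq_fin p e hx hxa hs
          by_cases hxr : p.ρ ⟨x, hx⟩ - (e1 : L) = 0
          · rw [vl_root hns _ _ hxr]
            exact g2 hxr
          · rw [vl_some hns _ _ hxr]
            exact g1 hxr
      · rintro n ⟨s, hs⟩
        by_cases hxa : x - (e2 : R) = 0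
        · rw [vl_root h _ _ hxa] at hs
          have hxr : p.ρ ⟨x, hx⟩ - (e2 : L) = 0 := by
            have h3 : (⟨x, hx⟩ : p.W) = ⟨(e2 : R), (hint e2).1⟩ := Subtype.ext (sub_eq_zero.1 hxa)
            rw [h3, (hint e2).2, sub_self]
          rw [vl_root hns _ _ hxr]
          have := hcst ((e2 - e1) * (e2 - e3)) n ⟨s, by push_cast; exact hs⟩
          push_cast at this
          exact this
        · rw [vl_some h _ _ hxa] at hs
          obtain ⟨g1, g2⟩ := sq_fin p e' hx hxa hs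
          by_cases hxr : p.ρ ⟨x, hx⟩ - (e2 : L) = 0
          · rw [vl_root hns _ _ hxr]
            exact g2 hxr
          · rw [vl_some hns _ _ hxr]
            exact g1 hxr
    · have hne : ∀ m : ℤ, x - (m : R) ≠ 0 := by
        intro m h
        apply hx
        rw [sub_eq_zero.1 h]
        exact (hint m).1
      refine ⟨0, ?_, ?_⟩
      · rintro n ⟨s, hs⟩
        rw [vl_some h _ _ (hne e1)] at hs
        rw [vl_zero, one_mul]
        exact sq_infty p e hx hs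
      · rintro n ⟨s, hs⟩
        rw [vl_some h _ _ (hne e2)] at hs
        rw [vl_zero, one_mul]
        exact sq_infty p e' hx hs

end points

end Pool.Agent.Q284.SC
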