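import Pool.Agent.Q284.FDQ.App
import Pool.Agent.Q284.FDQ.Mdl

/-!
# A positive proportion of the curves, with both properties
-/

set_option autoImplicit false

open WeierstrassCurve

namespace Pool.Agent.Q284.SC

open Finset Pool.Agent.W262.RK Pool.Agent.W307.RT Pool.Agent.W307.RS Pool.Agent.W307.SE
  Pool.Agent.W307.FK Pool.Agent.Y667.RP Pool.Agent.Y667.RZ Pool.Agent.Y667.MT
open Pool.Agent.Y285.RP Pool.Agent.Y285.RZ Pool.Agent.Y738.MT
open Pool.Agent.Y667.PA (TPR)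
open Pool.Agent.Q284.ISO
open Pool.Agent.Q284.FDQ

/-- both properties -/
def PQR (T : ℕ) (c : ℤ × ℤ) : Prop := PQ T c ∧ PR c

open Classical in
/-- **A positive proportion of the curves.** -/
theorem curvesPQR (T : ℕ) : ∃ c : ℝ, 0 < c ∧ ∃ H0 : ℕ, ∀ H : ℕ, H0 ≤ H →
    c * ((Cv 2 H).card : ℝ) ≤ (((Cv 2 H).filter (PQR T)).card : ℝ) := by
  refine transT 0 T (PQR T) fun X t ht h hω => ?_
  obtain ⟨s, hs, e0, e1, hkk, hcase⟩ := pair_hp ht h
  have hs2 : thd t = s 2 := by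
    have r0 := hs.rel
    unfold thd
    omega
  rw [hs2] at hω
  obtain ⟨b0, ba, n1, n17⟩ := hp_four hs
  rcases hcase with ⟨h1, h2⟩ | ⟨h1, h2⟩
  · left
    have h1' := h1
    rw [← e0, ← e1] at h1'
    refine ⟨⟨h1, fun A B hAB => ?_, ?_⟩, ?_⟩
    · rw [← e0, ← e1] at hAB ⊢
      exact nice_of hkk (by omega) (by omega) (by omega) (four_of b0 ba (nsq_int n1)) hAB
    · rw [← e0, ← e1]
      apply LD.many hs.ld1 hkk
      obtain ⟨f1, g1, k1, l1, -⟩ := hs.six1 1
      obtain ⟨f2, g2, k2, l2, -⟩ := hs.six1 2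
      rcases two_low hs.card_pf (hs.low1 (i := 1) (by decide) l1)
        (hs.low1 (i := 2) (by decide) l2) hω with h3 | h3
      · exact ⟨1, by decide, g1, l1, h3⟩
      · exact ⟨2, by decide, g2, l2, h3⟩
    · rw [← e0, ← e1]
      exact pr_of hkk b0 ba n1 h1'
  · right
    have h1' := h1
    rw [← e0, ← e1] at h1'
    have q1 : 17 * (s 0 : ℤ) + 17 * (s 1 : ℤ) = 3 * (17 * (((t.1 + t.2) / 3 : ℕ) : ℤ)) := by
      linarith
    refine ⟨⟨h1, fun A B hAB => ?_, ?_⟩, ?_⟩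
    · rw [← e0, ← e1] at hAB ⊢
      exact nice_of q1 (by omega) (by omega) (by omega)
        (four_of (by omega) (by omega) (nsq_int n17)) hAB
    · rw [← e0, ← e1]
      apply LD.many hs.ld17 q1
      obtain ⟨f1, g1, k1, l1, -⟩ := hs.six17 1
      obtain ⟨f2, g2, k2, l2, -⟩ := hs.six17 2
      rcases two_low hs.card_pf (hs.low17 (i := 1) (by decide) l1)
        (hs.low17 (i := 2) (by decide) l2) hω with h3 | h3
      · exact ⟨1, by decide, g1, l1, h3⟩
      · exact ⟨2, by decide, g2, l2, h3⟩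
    · rw [← e0, ← e1]
      exact pr_of (by linarith) (by omega) (by omega) n17 h1'

end Pool.Agent.Q284.SC
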