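import Pool.Agent.Q284.SC.Step
import Mathlib.FieldTheory.Galois.Infinite

/-!
# The classes of the points fixed by a section, and the values at the places
-/

set_option autoImplicit false

open WeierstrassCurve

namespace Pool.Agent.Q284.SC

open Pool.Agent.W620.SC Pool.Agent.W623.SecC Pool.Agent.W623.SecE

open Pool.Agent.H437R2.Man.MW (crv crv_eqn crv_nonsing)

open Pool.Agent.W307.SE (Sel)

open Pool.Agent.Q284.FDQ

section

variable {F Ω : Type} [Field F] [Field Ω] [Algebra ℚ F] [Algebra F Ω] [Algebra ℚ Ω]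
  {U : Set (ValuationSubring F)}

/-- the section is given over `L` by the place `p` -/
def Given {k F Ω : Type} [Field k] [Field F] [Field Ω] [Algebra F Ω] [Algebra k Ω]
    {U : Set (ValuationSubring F)} (G : GSection k F Ω U) (L : Type) {C : Type} [Field L] [Field C]
    [Algebra L C] (p : Place (unramified F Ω U) C) : Prop :=
  ∀ τ : C ≃ₐ[L] C, ∃ g, ∀ x (hx : x ∈ p.W), ∃ h' : G.toHom g x ∈ p.W,
    p.ρ ⟨_, h'⟩ = τ (p.ρ ⟨x, hx⟩)

section

variable (G : GSection ℚ F Ω U) {L C : Type} [Field L] [CharZero L] [Field C] [Algebra L C]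
  [IsAlgClosure L C] (p : Place (unramified F Ω U) C) (hp : Given G L p)

include hp in
omit [CharZero L] [Algebra ℚ F] [IsAlgClosure L C] in
lemma val_fix {x : unramified F Ω U} (hx : x ∈ R G) (hW : x ∈ p.W) (τ : C ≃ₐ[L] C) :
    τ (p.ρ ⟨x, hW⟩) = p.ρ ⟨x, hW⟩ := by
  obtain ⟨g, hg⟩ := hp τ
  obtain ⟨h', e⟩ := hg x hW
  rw [← e]
  congr 1
  exact Subtype.ext ((mem_R G).1 hx g)

include hp in
omit [Algebra ℚ F] in
lemma val_mem {x : unramified F Ω U} (hx : x ∈ R G) (hW : x ∈ p.W) :
    p.ρ ⟨x, hW⟩ ∈ (algebraMap L C).fieldRange := by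
  have h1 : Normal L C := IsAlgClosure.normal L C
  have h2 : IsGalois L C := ⟨⟩
  exact (InfiniteGalois.mem_range_algebraMap_iff_fixed (p.ρ ⟨x, hW⟩)).2
    fun τ => val_fix G p hp hx hW τ

/-- the place of the fixed field -/
noncomputable def placeFix : Place (R G) L where
  W := p.W.comap (algebraMap (R G) (unramified F Ω U))
  ρ := ((algebraMap L C).rangeRestrictFieldEquiv.symm : (algebraMap L C).fieldRange →+* L).comp
    (RingHom.codRestrict (p.ρ.comp ((algebraMap (R G) (unramified F Ω U)).restrict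
      (p.W.comap (algebraMap (R G) (unramified F Ω U))) p.W fun _ hx => hx))
      (algebraMap L C).fieldRange fun x => val_mem G p hp x.1.2 x.2)
  loc := by
    intro x hx
    refine p.loc ⟨algebraMap (R G) (unramified F Ω U) x.1, x.2⟩ fun h => hx ?_
    rw [RingHom.comp_apply]
    have h0 : (RingHom.codRestrict (p.ρ.comp ((algebraMap (R G) (unramified F Ω U)).restrict
      (p.W.comap (algebraMap (R G) (unramified F Ω U))) p.W fun _ hx => hx))
      (algebraMap L C).fieldRange fun x => val_mem G p hp x.1.2 x.2) x = 0 := Subtype.ext h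
    rw [h0, map_zero]

end

variable [IsScalarTower ℚ F Ω]

/-- the class of `x - a` -/
lemma cls_root [IsAlgClosed Ω] [Algebra.IsAlgebraic F Ω]
    (hU : ∀ O ∈ U, ∀ c : ℚ, algebraMap ℚ F c ∈ O) (G : GSection ℚ F Ω U)
    {x y : R G} {a b c : ℤ} (hab : a ≠ b) (hac : a ≠ c)
    (e : y ^ 2 = (x - a) * (x - b) * (x - c)) (h0 : x - a ≠ 0) :
    ∃ n : ℤ, Squarefree n ∧ IsSquare ((x - a) * n) := by
  have e' : (y : unramified F Ω U) ^ 2 = ((x : unramified F Ω U) - a) *
      ((x : unramified F Ω U) - b) * ((x : unramified F Ω U) - c) :=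
    congrArg (Subtype.val : R G → unramified F Ω U) e
  obtain ⟨α, hα⟩ := root_mem' (k := ℚ) hU hab hac e'
  have hz : (x : unramified F Ω U) - a ∈ R G := sub_mem x.2 (intCast_mem _ a)
  have hz0 : (x : unramified F Ω U) - a ≠ 0 := fun h => h0 (Subtype.ext h)
  obtain ⟨q, hq0, γ, hγ, hγ2⟩ := kummer (k := ℚ) hU G hz hz0 hα
  rw [← RingHom.comp_apply, eq_ratCast] at hγ2
  have hnum : q.num * q.den ≠ 0 := mul_ne_zero (Rat.num_ne_zero.2 hq0)
    (Int.natCast_ne_zero.2 q.den_ne_zero)
  obtain ⟨n, s, hn, hs, hns, -, -⟩ := Pool.Agent.Y212.RZ.exists_sf (q.num * q.den) hnum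
  have hden : ((q.den : ℚ)) ≠ 0 := Nat.cast_ne_zero.2 q.den_ne_zero
  have hqn : q * n = (n * s / q.den) ^ 2 := by
    have h1 : ((q.num : ℚ)) * q.den = n * s ^ 2 := by exact_mod_cast congrArg (Int.cast : ℤ → ℚ) hns
    have h2 : q = q.num / q.den := (Rat.num_div_den q).symm
    have h3 : q * q.den ^ 2 = n * s ^ 2 := by
      rw [← h1]
      nth_rewrite 1 [h2]
      field_simp
    rw [div_pow, eq_div_iff (pow_ne_zero 2 hden)]
    linear_combination (n : ℚ) * h3
  refine ⟨n, hn, ((n * s / q.den : ℚ) : R G) * ⟨γ, hγ⟩, ?_⟩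
  apply Subtype.ext
  have h4 : ((q : ℚ) : unramified F Ω U) * n = ((n * s / q.den : ℚ) : unramified F Ω U) ^ 2 := by
    have hΩ : CharZero Ω := algebraRat.charZero Ω
    have hM : CharZero (unramified F Ω U) := (algebraMap (unramified F Ω U) Ω).charZero
    have h6 := congrArg (Rat.castHom (unramified F Ω U)) hqn
    rw [map_mul, map_pow, map_intCast] at h6
    exact h6
  have h5 : (((n * s / q.den : ℚ) : R G) : unramified F Ω U) =
      ((n * s / q.den : ℚ) : unramified F Ω U) := by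
    exact map_ratCast (algebraMap (R G) (unramified F Ω U)) _
  change ((x : unramified F Ω U) - a) * n = (((n * s / q.den : ℚ) : R G) : unramified F Ω U) * γ *
    ((((n * s / q.den : ℚ) : R G) : unramified F Ω U) * γ)
  rw [hγ2, h5]
  linear_combination γ ^ 2 * h4

/-- the classes of a point -/
lemma cls_pt [IsAlgClosed Ω] [Algebra.IsAlgebraic F Ω]
    (hU : ∀ O ∈ U, ∀ c : ℚ, algebraMap ℚ F c ∈ O) (G : GSection ℚ F Ω U)
    {WR : WeierstrassCurve (R G)} {a b c : ℤ}
    (hR : WR = crv (-(a : R G)) (-(b : R G)) (-(c : R G))) (hab : a ≠ b) (hac : a ≠ c)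
    (P : WR.toAffine.Point) :
    ∃ n : ℤ, Squarefree n ∧ IsSquare (vl P (a : R G) ((a - b) * (a - c)) * n) := by
  rcases P with _ | ⟨x, y, h⟩
  · exact ⟨1, squarefree_one, 1, by
      change (1 : R G) * ((1 : ℤ) : R G) = 1 * 1
      rw [Int.cast_one]⟩
  · by_cases h0 : x - (a : R G) = 0
    · rw [vl_root h _ _ h0]
      obtain ⟨n, s, hn, hs, hns, -, -⟩ := Pool.Agent.Y212.RZ.exists_sf ((a - b) * (a - c))
        (mul_ne_zero (sub_ne_zero.2 hab) (sub_ne_zero.2 hac))
      refine ⟨n, hn, n * s, ?_⟩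
      have h1 : (((a - b) * (a - c) : ℤ) : R G) = n * s ^ 2 := by
        rw [hns]; push_cast; ring
      push_cast at h1
      rw [h1]
      ring
    · rw [vl_some h _ _ h0]
      have e : y ^ 2 = (x - a) * (x - b) * (x - c) := by
        have h1 := h.1
        rw [hR] at h1
        have := crv_eqn.mp h1
        linear_combination this
      exact cls_root hU G hab hac e h0

end

end Pool.Agent.Q284.SC
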