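import Pool.Agent.Q284.FDQ.App

/-!
# The elements of a 2-Selmer group of order four are the classes of the points of order two
-/

set_option autoImplicit false

namespace Pool.Agent.Q284.SC

open Finset WeierstrassCurve

open Pool.Agent.W307.SE (Loc Sel SelR)

open Pool.Agent.Q284.FDQ

open Pool.Agent.H437R2.Man.MW (crv crv_eqn crv_nonsing)

/-- `(b, d)` is the pair of the classes of a point of order two (or of the zero) -/
def TC (A B : ℤ) (b d : ℤ) : Prop :=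
  (IsSquare (b : ℚ) ∧ IsSquare (d : ℚ)) ∨
  (IsSquare ((A : ℚ) * B * b) ∧ IsSquare (-(A : ℚ) * d)) ∨
  (IsSquare ((A : ℚ) * b) ∧ IsSquare ((A : ℚ) * (A - B) * d)) ∨
  (IsSquare ((B : ℚ) * b) ∧ IsSquare (((B : ℚ) - A) * d))

section

variable {A B : ℤ}

theorem four_tors (hA : A ≠ 0) (hB : B ≠ 0) (hAB : A ≠ B) (h : Four A B) :
    ∃ F : Finset (ℤ × ℤ), F.card = 4 ∧ (F : Set (ℤ × ℤ)) ⊆ RP A B ∧ ∀ p ∈ F, TC A B p.1 p.2 := by
  have hA' : (A : ℚ) ≠ 0 := Int.cast_ne_zero.2 hA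
  have hB' : (B : ℚ) ≠ 0 := Int.cast_ne_zero.2 hB
  have hAB' : (A : ℚ) - B ≠ 0 := sub_ne_zero.2 (Int.cast_injective.ne hAB)
  obtain ⟨s0, k0, q0, n0, e0⟩ := sqf (A * B) (mul_ne_zero hA hB)
  obtain ⟨t0, l0, r0, m0, f0⟩ := sqf (-A) (neg_ne_zero.2 hA)
  obtain ⟨s1, k1, q1, n1, e1⟩ := sqf A hA
  obtain ⟨t1, l1, r1, m1, f1⟩ := sqf (A * (A - B)) (mul_ne_zero hA (sub_ne_zero.2 hAB))
  obtain ⟨s2, k2, q2, n2, e2⟩ := sqf B hB
  obtain ⟨t2, l2, r2, m2, f2⟩ := sqf (B - A) (sub_ne_zero.2 hAB.symm)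
  push_cast at e0 f0 f1 f2
  have o : (1 : ℚ) = ((1 : ℤ) : ℚ) * 1 ^ 2 := by norm_num
  have hs0 : (s0 : ℚ) ≠ 0 := Int.cast_ne_zero.2 q0.ne_zero
  have ht0 : (t0 : ℚ) ≠ 0 := Int.cast_ne_zero.2 r0.ne_zero
  have hs1 : (s1 : ℚ) ≠ 0 := Int.cast_ne_zero.2 q1.ne_zero
  have ht1 : (t1 : ℚ) ≠ 0 := Int.cast_ne_zero.2 r1.ne_zero
  have hs2 : (s2 : ℚ) ≠ 0 := Int.cast_ne_zero.2 q2.ne_zero
  have ht2 : (t2 : ℚ) ≠ 0 := Int.cast_ne_zero.2 r2.ne_zero
  obtain ⟨h1, h2, h3⟩ := h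
  have c01 : ((1, 1) : ℤ × ℤ) ≠ (s0, t0) := by
    intro hc
    rw [Prod.mk.injEq] at hc
    obtain ⟨rfl, rfl⟩ := hc
    have g1 := sq_of o e0
    have g2 := sq_of o f0
    rw [one_mul] at g1 g2
    refine h1 ⟨g2, sq_div hA' ?_⟩
    have := g1.mul g2
    rwa [show (A : ℚ) * B * (-A) = A ^ 2 * (-B) by ring] at this
  have c02 : ((1, 1) : ℤ × ℤ) ≠ (s1, t1) := by
    intro hc
    rw [Prod.mk.injEq] at hc
    obtain ⟨rfl, rfl⟩ := hc
    have g1 := sq_of o e1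
    have g2 := sq_of o f1
    rw [one_mul] at g1 g2
    refine h2 ⟨g1, sq_div hA' ?_⟩
    have := g1.mul g2
    rwa [show (A : ℚ) * (A * (A - B)) = A ^ 2 * (A - B) by ring] at this
  have c03 : ((1, 1) : ℤ × ℤ) ≠ (s2, t2) := by
    intro hc
    rw [Prod.mk.injEq] at hc
    obtain ⟨rfl, rfl⟩ := hc
    have g1 := sq_of o e2
    have g2 := sq_of o f2
    rw [one_mul] at g1 g2
    exact h3 ⟨g1, g2⟩
  have c12 : ((s0, t0) : ℤ × ℤ) ≠ (s1, t1) := by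
    intro hc
    rw [Prod.mk.injEq] at hc
    obtain ⟨rfl, rfl⟩ := hc
    have g1 := sq_of e0 e1
    have g2 := sq_of f0 f1
    refine h3 ⟨sq_div hA' ?_, sq_div hA' ?_⟩
    · rwa [show (A : ℚ) * B * A = A ^ 2 * B by ring] at g1
    · rwa [show -(A : ℚ) * (A * (A - B)) = A ^ 2 * (B - A) by ring] at g2
  have c13 : ((s0, t0) : ℤ × ℤ) ≠ (s2, t2) := by
    intro hc
    rw [Prod.mk.injEq] at hc
    obtain ⟨rfl, rfl⟩ := hc
    have g1 := sq_of e0 e2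
    have g2 := sq_of f0 f2
    have g3 : IsSquare (A : ℚ) := by
      apply sq_div hB'
      rwa [show (A : ℚ) * B * B = B ^ 2 * A by ring] at g1
    refine h2 ⟨g3, sq_div hA' ?_⟩
    have := g3.mul g2
    rwa [show (A : ℚ) * (-A * (B - A)) = A ^ 2 * (A - B) by ring] at this
  have c23 : ((s1, t1) : ℤ × ℤ) ≠ (s2, t2) := by
    intro hc
    rw [Prod.mk.injEq] at hc
    obtain ⟨rfl, rfl⟩ := hc
    have g1 := sq_of e1 e2
    have g2 := sq_of f1 f2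
    have g3 : IsSquare (-(A : ℚ)) := by
      apply sq_div hAB'
      rwa [show (A : ℚ) * (A - B) * (B - A) = (A - B) ^ 2 * (-A) by ring] at g2
    refine h1 ⟨g3, sq_div hA' ?_⟩
    have := g1.mul g3
    rwa [show (A : ℚ) * B * (-A) = A ^ 2 * (-B) by ring] at this
  refine ⟨{(1, 1), (s0, t0), (s1, t1), (s2, t2)}, ?_, ?_, ?_⟩
  · rw [card_insert_of_notMem, card_insert_of_notMem, card_insert_of_notMem, card_singleton]
    · rw [mem_singleton]; exact c23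
    · rw [mem_insert, mem_singleton]
      exact fun h => h.elim c12 c13
    · rw [mem_insert, mem_insert, mem_singleton]
      exact fun h => h.elim c01 fun h => h.elim c02 c03
  · intro p hp
    rw [mem_coe, mem_insert, mem_insert, mem_insert, mem_singleton] at hp
    rcases hp with rfl | rfl | rfl | rfl
    · exact ⟨squarefree_one, squarefree_one, 1, 0, 1, 1, Or.inl one_ne_zero, by push_cast; ring,
        by push_cast; ring⟩
    · refine ⟨q0, r0, 0, 1, l0, k0 / (t0 * l0), Or.inr one_ne_zero, ?_, ?_⟩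
      · show (s0 : ℚ) * 0 ^ 2 - A * 1 ^ 2 = t0 * l0 ^ 2
        linear_combination f0
      · show (s0 : ℚ) * 0 ^ 2 - B * 1 ^ 2 = s0 * t0 * (k0 / (t0 * l0)) ^ 2
        have : (t0 : ℚ) * l0 ^ 2 * (-B) = s0 * k0 ^ 2 := by
          rw [← e0, ← f0]; ring
        field_simp
        linear_combination this
    · refine ⟨q1, r1, k1, 1, 0, l1 / (s1 * k1), Or.inr one_ne_zero, ?_, ?_⟩
      · show (s1 : ℚ) * k1 ^ 2 - A * 1 ^ 2 = t1 * 0 ^ 2
        linear_combination -e1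
      · show (s1 : ℚ) * k1 ^ 2 - B * 1 ^ 2 = s1 * t1 * (l1 / (s1 * k1)) ^ 2
        have : (s1 : ℚ) * k1 ^ 2 * (s1 * k1 ^ 2 - B) = t1 * l1 ^ 2 := by
          rw [← e1, ← f1]
        field_simp
        linear_combination this
    · refine ⟨q2, r2, k2, 1, l2, 0, Or.inr one_ne_zero, ?_, ?_⟩
      · show (s2 : ℚ) * k2 ^ 2 - A * 1 ^ 2 = t2 * l2 ^ 2
        linear_combination f2 - e2
      · show (s2 : ℚ) * k2 ^ 2 - B * 1 ^ 2 = s2 * t2 * 0 ^ 2
        linear_combination -e2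
  · intro p hp
    rw [mem_insert, mem_insert, mem_insert, mem_singleton] at hp
    rcases hp with rfl | rfl | rfl | rfl
    · exact Or.inl ⟨⟨1, by norm_num⟩, ⟨1, by norm_num⟩⟩
    · refine Or.inr (Or.inl ⟨⟨s0 * k0, ?_⟩, ⟨t0 * l0, ?_⟩⟩)
      · show (A : ℚ) * B * s0 = s0 * k0 * (s0 * k0)
        rw [e0]; ring
      · show -(A : ℚ) * t0 = t0 * l0 * (t0 * l0)
        rw [f0]; ring
    · refine Or.inr (Or.inr (Or.inl ⟨⟨s1 * k1, ?_⟩, ⟨t1 * l1, ?_⟩⟩))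
      · show (A : ℚ) * s1 = s1 * k1 * (s1 * k1)
        rw [e1]; ring
      · show (A : ℚ) * (A - B) * t1 = t1 * l1 * (t1 * l1)
        rw [f1]; ring
    · refine Or.inr (Or.inr (Or.inr ⟨⟨s2 * k2, ?_⟩, ⟨t2 * l2, ?_⟩⟩))
      · show (B : ℚ) * s2 = s2 * k2 * (s2 * k2)
        rw [e2]; ring
      · show ((B : ℚ) - A) * t2 = t2 * l2 * (t2 * l2)
        rw [f2]; ring

theorem tors_of_sel (hA : A ≠ 0) (hB : B ≠ 0) (hAB : A ≠ B) (h : Four A B)
    (hc : (Sel A B).ncard ≤ 4) {b d : ℤ} (hm : (b, d) ∈ Sel A B) : TC A B b d := by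
  have hfin := Pool.Agent.W701.FK.sel_fin' hA hB hAB
  obtain ⟨F, hF, hFs, hT⟩ := four_tors hA hB hAB h
  have h1 : (F : Set (ℤ × ℤ)) = Sel A B := by
    apply Set.eq_of_subset_of_ncard_le (hFs.trans (rp_sub hA hB hAB)) _ hfin
    rw [Set.ncard_coe_finset, hF]
    exact hc
  rw [← h1] at hm
  exact hT _ hm

end

open Classical in
/-- the point of order two with the given classes -/
lemma tors_pt {A B e1 e2 e3 b d : ℤ}
    (h : ∀ x : ℤ, x ^ 3 + A * x + B = (x - e1) * (x - e2) * (x - e3))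
    (h12 : e1 ≠ e2) (h13 : e1 ≠ e3) (h23 : e2 ≠ e3) (hT : TC (e2 - e1) (e3 - e1) b d) :
    ∃ T : ((WZ A B).baseChange ℚ).Point, T + T = 0 ∧
      IsSquare (vl T (e1 : ℚ) ((e1 - e2) * (e1 - e3)) * b) ∧
      IsSquare (vl T (e2 : ℚ) ((e2 - e1) * (e2 - e3)) * d) := by
  have hW := WZ_eq h ℚ
  have c12 : (e1 : ℚ) ≠ e2 := fun h => h12 (by exact_mod_cast h)
  have c13 : (e1 : ℚ) ≠ e3 := fun h => h13 (by exact_mod_cast h)
  have c23 : (e2 : ℚ) ≠ e3 := fun h => h23 (by exact_mod_cast h)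
  have hns : ∀ e : ℤ, (e = e1 ∨ e = e2 ∨ e = e3) →
      ((WZ A B).baseChange ℚ).Nonsingular (e : ℚ) 0 := by
    intro e he
    rw [hW]
    apply crv_nonsing
    · intro h; exact c12 (neg_injective h)
    · intro h; exact c13 (neg_injective h)
    · intro h; exact c23 (neg_injective h)
    · rcases he with rfl | rfl | rfl <;> ring
  have hdbl : ∀ (e : ℤ) (he : e = e1 ∨ e = e2 ∨ e = e3),
      (Affine.Point.some _ _ (hns e he) : ((WZ A B).baseChange ℚ).Point) +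
        Affine.Point.some _ _ (hns e he) = 0 := by
    intro e he
    apply Affine.Point.add_self_of_Y_eq
    rw [Affine.negY, hW]
    unfold crv
    simp
  rcases hT with ⟨h1, h2⟩ | ⟨h1, h2⟩ | ⟨h1, h2⟩ | ⟨h1, h2⟩
  · refine ⟨0, add_zero _, ?_, ?_⟩
    · rw [vl_zero, one_mul]; exact h1
    · rw [vl_zero, one_mul]; exact h2
  · refine ⟨_, hdbl e1 (Or.inl rfl), ?_, ?_⟩
    · rw [vl_root _ _ _ (by ring)]
      have : ((e1 : ℚ) - e2) * (e1 - e3) * b = ((e2 - e1 : ℤ) : ℚ) * ((e3 - e1 : ℤ) : ℚ) * b := by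
        push_cast; ring
      rw [this]; exact h1
    · rw [vl_some _ _ _ (sub_ne_zero.2 c12)]
      have : ((e1 : ℚ) - e2) * d = -((e2 - e1 : ℤ) : ℚ) * d := by
        push_cast; ring
      rw [this]; exact h2
  · refine ⟨_, hdbl e2 (Or.inr (Or.inl rfl)), ?_, ?_⟩
    · rw [vl_some _ _ _ (sub_ne_zero.2 c12.symm)]
      have : ((e2 : ℚ) - e1) * b = ((e2 - e1 : ℤ) : ℚ) * b := by
        push_cast; ring
      rw [this]; exact h1
    · rw [vl_root _ _ _ (by ring)]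
      have : ((e2 : ℚ) - e1) * (e2 - e3) * d =
          ((e2 - e1 : ℤ) : ℚ) * (((e2 - e1 : ℤ) : ℚ) - ((e3 - e1 : ℤ) : ℚ)) * d := by
        push_cast; ring
      rw [this]; exact h2
  · refine ⟨_, hdbl e3 (Or.inr (Or.inr rfl)), ?_, ?_⟩
    · rw [vl_some _ _ _ (sub_ne_zero.2 c13.symm)]
      have : ((e3 : ℚ) - e1) * b = ((e3 - e1 : ℤ) : ℚ) * b := by
        push_cast; ring
      rw [this]; exact h1
    · rw [vl_some _ _ _ (sub_ne_zero.2 c23.symm)]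
      have : ((e3 : ℚ) - e2) * d = (((e3 - e1 : ℤ) : ℚ) - ((e2 - e1 : ℤ) : ℚ)) * d := by
        push_cast; ring
      rw [this]; exact h2

end Pool.Agent.Q284.SC
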