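import Pool.Agent.Q284.SC.Loc
import Pool.Agent.Q284.SC.Tor

/-!
# Points over a field with places over all completions
-/

set_option autoImplicit false

open WeierstrassCurve

namespace Pool.Agent.Q284.SC

open Pool.Agent.H437R2.Man.MW (crv crv_eqn crv_nonsing)

open Pool.Agent.W307.SE (Loc Sel SelR)

open Pool.Agent.Q284.FDQ

/-- the classes of a point are in the 2-Selmer group -/
theorem sel_crv {R : Type} [Field R] [CharZero R] {WR : WeierstrassCurve R} {e1 e2 e3 : ℤ}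
    (hR : WR = crv (-(e1 : R)) (-(e2 : R)) (-(e3 : R)))
    (h12 : e1 ≠ e2) (h13 : e1 ≠ e3) (h23 : e2 ≠ e3) (pr : Place R ℝ)
    (pp : ∀ (p : ℕ) [Fact p.Prime], Place R ℚ_[p]) (P : WR.toAffine.Point)
    {n1 n2 : ℤ} (hn1 : Squarefree n1) (hn2 : Squarefree n2)
    (p1 : IsSquare (vl P (e1 : R) ((e1 - e2) * (e1 - e3)) * n1))
    (p2 : IsSquare (vl P (e2 : R) ((e2 - e1) * (e2 - e3)) * n2)) :
    (n1, n2) ∈ Sel (e2 - e1) (e3 - e1) := by
  have key : ∀ (L : Type) [Field L] [CharZero L] (_ : Place R L),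
      Cov L (e2 - e1) (e3 - e1) n1 n2 := by
    intro L _ _ pl
    obtain ⟨Q, a1, a2⟩ := place_pt pl hR (WL := crv (-(e1 : L)) (-(e2 : L)) (-(e3 : L))) rfl
      h12 h13 h23 P
    exact cov_of_vl rfl (Int.cast_ne_zero.2 hn1.ne_zero) (Int.cast_ne_zero.2 hn2.ne_zero)
      (fun h => h12 (by exact_mod_cast h)) Q (a1 n1 p1) (a2 n2 p2)
  exact sel_of (sub_ne_zero.2 h12.symm) (sub_ne_zero.2 h13.symm) (fun h => h23 (by linarith))
    hn1 hn2 (key ℝ pr) (fun p _ => key ℚ_[p] (pp p))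

section

variable {A B e1 e2 e3 : ℤ} (h : ∀ x : ℤ, x ^ 3 + A * x + B = (x - e1) * (x - e2) * (x - e3))
  (h12 : e1 ≠ e2) (h13 : e1 ≠ e3) (h23 : e2 ≠ e3)

include h h12 h13 h23

/-- the classes of a point are in the 2-Selmer group -/
theorem sel_pt {R : Type} [Field R] [CharZero R] (pr : Place R ℝ)
    (pp : ∀ (p : ℕ) [Fact p.Prime], Place R ℚ_[p]) (P : ((WZ A B).baseChange R).Point)
    {n1 n2 : ℤ} (hn1 : Squarefree n1) (hn2 : Squarefree n2)
    (p1 : IsSquare (vl P (e1 : R) ((e1 - e2) * (e1 - e3)) * n1))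
    (p2 : IsSquare (vl P (e2 : R) ((e2 - e1) * (e2 - e3)) * n2)) :
    (n1, n2) ∈ Sel (e2 - e1) (e3 - e1) :=
  sel_crv (WZ_eq h R) h12 h13 h23 pr pp P hn1 hn2 p1 p2

open Classical in
/-- the point is congruent to a rational point of order two -/
theorem step (h4 : Four ((e2 - e1 : ℤ) : ℚ) ((e3 - e1 : ℤ) : ℚ))
    (hc : (Sel (e2 - e1) (e3 - e1)).ncard ≤ 4) {R : Type} [Field R] [CharZero R] [Algebra ℚ R]
    (pr : Place R ℝ) (pp : ∀ (p : ℕ) [Fact p.Prime], Place R ℚ_[p])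
    (P : ((WZ A B).baseChange R).Point)
    {n1 n2 : ℤ} (hn1 : Squarefree n1) (hn2 : Squarefree n2)
    (p1 : IsSquare (vl P (e1 : R) ((e1 - e2) * (e1 - e3)) * n1))
    (p2 : IsSquare (vl P (e2 : R) ((e2 - e1) * (e2 - e3)) * n2)) :
    ∃ T : ((WZ A B).baseChange ℚ).Point, T + T = 0 ∧
      ∃ S, P = Affine.Point.baseChange ℚ R T + (S + S) := by
  have hm := sel_pt h h12 h13 h23 pr pp P hn1 hn2 p1 p2
  have hT := tors_of_sel (sub_ne_zero.2 h12.symm) (sub_ne_zero.2 h13.symm)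
    (fun h => h23 (by linarith)) h4 hc hm
  obtain ⟨T, t0, t1, t2⟩ := tors_pt h h12 h13 h23 hT
  exact ⟨T, t0, one_field' h h12 h13 h23 hn1.ne_zero hn2.ne_zero P T p1 p2 t1 t2⟩

open Classical in
/-- all powers of two -/
theorem steps (h4 : Four ((e2 - e1 : ℤ) : ℚ) ((e3 - e1 : ℤ) : ℚ))
    (hc : (Sel (e2 - e1) (e3 - e1)).ncard ≤ 4) {R : Type} [Field R] [CharZero R] [Algebra ℚ R]
    (pr : Place R ℝ) (pp : ∀ (p : ℕ) [Fact p.Prime], Place R ℚ_[p])
    (cls : ∀ P : ((WZ A B).baseChange R).Point, ∃ n1 n2 : ℤ, Squarefree n1 ∧ Squarefree n2 ∧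
      IsSquare (vl P (e1 : R) ((e1 - e2) * (e1 - e3)) * n1) ∧
      IsSquare (vl P (e2 : R) ((e2 - e1) * (e2 - e3)) * n2))
    (P : ((WZ A B).baseChange R).Point) :
    ∃ T : ((WZ A B).baseChange ℚ).Point, T + T = 0 ∧
      ∀ m : ℕ, ∃ S, P = Affine.Point.baseChange ℚ R T + 2 ^ m • S := by
  have one : ∀ P : ((WZ A B).baseChange R).Point, ∃ T : ((WZ A B).baseChange ℚ).Point,
      T + T = 0 ∧ ∃ S, P = Affine.Point.baseChange ℚ R T + (S + S) := by
    intro P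
    obtain ⟨n1, n2, hn1, hn2, p1, p2⟩ := cls P
    exact step h h12 h13 h23 h4 hc pr pp P hn1 hn2 p1 p2
  obtain ⟨T, t0, S, hS⟩ := one P
  refine ⟨T, t0, fun m => ?_⟩
  have key : ∀ m : ℕ, ∃ S, P = Affine.Point.baseChange ℚ R T + 2 ^ (m + 1) • S := by
    intro m
    induction m with
    | zero => exact ⟨S, by rw [hS, zero_add, pow_one, two_nsmul]⟩
    | succ m ih =>
      obtain ⟨S', hS'⟩ := ih
      obtain ⟨T', t0', S'', hS''⟩ := one S'
      refine ⟨S'', ?_⟩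
      rw [hS', hS'']
      congr 1
      have h0 : 2 ^ (m + 1) • Affine.Point.baseChange ℚ R T' = 0 := by
        rw [pow_succ, mul_nsmul', two_nsmul, ← map_add, t0', map_zero, smul_zero]
      rw [nsmul_add, h0, zero_add, ← two_nsmul, ← mul_nsmul', ← pow_succ]
  match m with
  | 0 => exact ⟨P - Affine.Point.baseChange ℚ R T, by rw [pow_zero, one_nsmul]; abel⟩
  | m + 1 => exact key m

end

end Pool.Agent.Q284.SC
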